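import Mathlib

open MeasureTheory Set Filter

namespace Pool.Agent.Results.MP_75ee99_lc.NotMonotone

/-- time at which the turning point `y i` is reached (unit speed) -/
noncomputable def tau (y : ℕ → ℝ) (i : ℕ) : ℝ := ∑ j ∈ Finset.range i, |y (j + 1) - y j|

/-- `y` is the sequence of turning points of a trajectory -/
def IsTraj (y : ℕ → ℝ) : Prop :=
  y 0 = 0 ∧ y 1 ≠ 0 ∧ (∀ i, (y (i + 2) - y (i + 1)) * (y (i + 1) - y i) < 0) ∧
    Tendsto (tau y) atTop atTop

/-- the set of times `t` with `X(t) = h` -/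
def passes (y : ℕ → ℝ) (h : ℝ) : Set ℝ :=
  {t | ∃ i, h ∈ uIcc (y i) (y (i + 1)) ∧ t = tau y i + |h - y i|}

/-- `E[T_h] = ∫ P(T_h > t) dt`, where `P(T_h > t) = (1-p)^(number of passes up to time t)` -/
noncomputable def ET (p : ℝ) (y : ℕ → ℝ) (h : ℝ) : ENNReal :=
  ∫⁻ t in Ioi (0 : ℝ), ENNReal.ofReal ((1 - p) ^ (passes y h ∩ Iic t).ncard)

/-- competitive ratio -/
noncomputable def CR (p : ℝ) (y : ℕ → ℝ) : ENNReal :=
  ⨆ (h : ℝ) (_ : 1 ≤ |h|), ENNReal.ofReal p * ET p y h / ENNReal.ofReal |h|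

/-- cyclic and monotone -/
def CycMon (y : ℕ → ℝ) : Prop :=
  ∀ i, y (i + 1) * y (i + 2) < 0 ∧ |y (i + 1)| < |y (i + 3)|

lemma ind_int (c : ENNReal) (b : ℝ) :
    ∫⁻ t in Ioi (0 : ℝ), (Iio b).indicator (fun _ => c) t = c * ENNReal.ofReal b := by
  rw [lintegral_indicator measurableSet_Iio, setLIntegral_const, Measure.restrict_apply measurableSet_Iio,
    Iio_inter_Ioi, Real.volume_Ioo, sub_zero]

lemma up (P : Set ℝ) (fin : ∀ t, (P ∩ Iic t).Finite) (s : ℕ → ℝ) (hs : StrictMono s)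
    (hP : ∀ k, s k ∈ P) (h0 : 0 ≤ s 0) (M : ℝ) (hM : ∀ k, s (k + 2) ≤ M * 2 ^ (k + 2)) :
    ∫⁻ t in Ioi (0 : ℝ), ENNReal.ofReal ((1 - 19 / 20 : ℝ) ^ (P ∩ Iic t).ncard) ≤
      ENNReal.ofReal (19 / 20 * (s 0 + s 1 / 20 + M / 90)) := by
  have hq : (1 - 19 / 20 : ℝ) = 1 / 20 := by norm_num
  rw [hq]
  have hnn : ∀ k, 0 ≤ s k := fun k => h0.trans (hs.monotone (Nat.zero_le k))
  have hpt : ∀ t, ENNReal.ofReal ((1 / 20 : ℝ) ^ (P ∩ Iic t).ncard) ≤
      ∑' k, (Iio (s k)).indicator (fun _ => ENNReal.ofReal (19 / 20 * (1 / 20 : ℝ) ^ k)) t := by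
    intro t
    set m := (P ∩ Iic t).ncard with hm
    have hlt : ∀ k, t < s (k + m) := by
      intro k
      by_contra hc
      push Not at hc
      have hsub : s '' (Finset.range (k + m + 1) : Set ℕ) ⊆ P ∩ Iic t := by
        rintro _ ⟨j, hj, rfl⟩
        simp only [Finset.coe_range, mem_Iio] at hj
        exact ⟨hP j, (hs.monotone (by omega)).trans hc⟩
      have := Set.ncard_le_ncard hsub (fin t)
      rw [Set.ncard_image_of_injective _ hs.injective, Set.ncard_coe_finset, Finset.card_range] at this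
      omega
    have h1 : HasSum (fun k : ℕ => 19 / 20 * (1 / 20 : ℝ) ^ (k + m)) ((1 / 20 : ℝ) ^ m) := by
      have := (hasSum_geometric_of_lt_one (r := (1 / 20 : ℝ)) (by norm_num) (by norm_num)).mul_left
        (19 / 20 * (1 / 20 : ℝ) ^ m)
      rw [show 19 / 20 * (1 / 20 : ℝ) ^ m * (1 - 1 / 20)⁻¹ = (1 / 20) ^ m by norm_num; ring] at this
      rw [show (fun k : ℕ => 19 / 20 * (1 / 20 : ℝ) ^ (k + m)) =
        fun k : ℕ => 19 / 20 * (1 / 20 : ℝ) ^ m * (1 / 20) ^ k from funext fun k => by ring]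
      exact this
    rw [← h1.tsum_eq, ENNReal.ofReal_tsum_of_nonneg (fun k => by positivity) h1.summable]
    refine le_trans (le_of_eq ?_) (ENNReal.tsum_comp_le_tsum_of_injective (f := fun k => k + m)
      (add_left_injective m) _)
    congr 1; ext k
    rw [indicator_of_mem (show t ∈ Iio (s (k + m)) from hlt k)]
  refine (lintegral_mono hpt).trans ?_
  rw [lintegral_tsum (fun k => (measurable_const.indicator measurableSet_Iio).aemeasurable)]
  simp only [ind_int]
  have h2 : HasSum (fun k : ℕ => 19 / 20 * M / 100 * (1 / 10 : ℝ) ^ k) (19 / 20 * (M / 90)) := by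
    have := (hasSum_geometric_of_lt_one (r := (1 / 10 : ℝ)) (by norm_num) (by norm_num)).mul_left
      (19 / 20 * M / 100)
    rwa [show 19 / 20 * M / 100 * (1 - 1 / 10 : ℝ)⁻¹ = 19 / 20 * (M / 90) by norm_num; ring] at this
  have hM0 : 0 ≤ M := by have := (hnn 2).trans (hM 0); norm_num at this; linarith
  rw [tsum_eq_zero_add' ENNReal.summable, tsum_eq_zero_add' ENNReal.summable]
  have h3 : ∑' k, ENNReal.ofReal (19 / 20 * (1 / 20 : ℝ) ^ (k + 1 + 1)) * ENNReal.ofReal (s (k + 1 + 1))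
      ≤ ENNReal.ofReal (19 / 20 * (M / 90)) := by
    rw [← h2.tsum_eq, ENNReal.ofReal_tsum_of_nonneg (fun k => by positivity) h2.summable]
    refine ENNReal.tsum_le_tsum fun k => ?_
    rw [← ENNReal.ofReal_mul (by positivity)]
    refine ENNReal.ofReal_le_ofReal ?_
    refine (mul_le_mul_of_nonneg_left (hM k) (by positivity)).trans (le_of_eq ?_)
    have : (1 / 10 : ℝ) ^ k = (1 / 20) ^ k * 2 ^ k := by rw [← mul_pow]; norm_num
    rw [this]; ring
  refine (add_le_add le_rfl (add_le_add le_rfl h3)).trans (le_of_eq ?_)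
  have a0 := hnn 0
  have a1 := hnn 1
  rw [← ENNReal.ofReal_mul (by positivity), ← ENNReal.ofReal_mul (by positivity),
    ← ENNReal.ofReal_add (by positivity) (by positivity),
    ← ENNReal.ofReal_add (by positivity) (by positivity)]
  congr 1; ring

lemma low (P : Set ℝ) (a b : ℝ) (ha : 0 ≤ a) (hab : a ≤ b) (hP : ∀ t ∈ P, t = a ∨ b ≤ t) :
    ENNReal.ofReal (19 / 20 * a + 1 / 20 * b) ≤
    ∫⁻ t in Ioi (0 : ℝ), ENNReal.ofReal ((1 - 19 / 20 : ℝ) ^ (P ∩ Iic t).ncard) := by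
  have hq : (1 - 19 / 20 : ℝ) = 1 / 20 := by norm_num
  rw [hq]
  have hb := ha.trans hab
  have hpt : ∀ t, (Iio a).indicator (fun _ => ENNReal.ofReal (19 / 20)) t +
      (Iio b).indicator (fun _ => ENNReal.ofReal (1 / 20)) t ≤
      ENNReal.ofReal ((1 / 20 : ℝ) ^ (P ∩ Iic t).ncard) := by
    intro t
    by_cases h1 : t < a
    · have : P ∩ Iic t = ∅ := by
        ext x; simp only [mem_inter_iff, mem_Iic, mem_empty_iff_false, iff_false, not_and, not_le]
        intro hx; rcases hP x hx with h | h <;> linarith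
      rw [this, indicator_of_mem (show t ∈ Iio a from h1),
        indicator_of_mem (show t ∈ Iio b from h1.trans_le hab),
        ← ENNReal.ofReal_add (by norm_num) (by norm_num)]
      norm_num
    · rw [indicator_of_notMem (show t ∉ Iio a from h1), zero_add]
      by_cases h2 : t < b
      · rw [indicator_of_mem (show t ∈ Iio b from h2)]
        have : (P ∩ Iic t).ncard ≤ 1 := by
          rw [← Set.ncard_singleton a]
          refine Set.ncard_le_ncard ?_ (finite_singleton a)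
          rintro x ⟨hx, hx'⟩
          rcases hP x hx with h | h
          · exact h
          · exact absurd (h.trans hx') (not_le.2 h2)
        refine ENNReal.ofReal_le_ofReal ?_
        have := pow_le_pow_of_le_one (a := (1 / 20 : ℝ)) (by norm_num) (by norm_num) this
        simpa using this
      · rw [indicator_of_notMem (show t ∉ Iio b from h2)]; exact zero_le
  refine le_trans (le_of_eq ?_) (lintegral_mono hpt)
  rw [lintegral_add_left (measurable_const.indicator measurableSet_Iio), ind_int, ind_int,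
    ← ENNReal.ofReal_mul (by positivity), ← ENNReal.ofReal_mul (by positivity),
    ← ENNReal.ofReal_add (by positivity) (by positivity)]

lemma tau_succ (y : ℕ → ℝ) (i : ℕ) : tau y (i + 1) = tau y i + |y (i + 1) - y i| :=
  Finset.sum_range_succ _ _

lemma tau_mono (y : ℕ → ℝ) : Monotone (tau y) :=
  monotone_nat_of_le_succ fun i => by rw [tau_succ]; linarith [abs_nonneg (y (i + 1) - y i)]

lemma tau_nn (y : ℕ → ℝ) (i : ℕ) : 0 ≤ tau y i := by
  have := tau_mono y (Nat.zero_le i); simpa [tau] using this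

lemma lower (z : ℕ → ℝ) (hz : IsTraj z) (hc : CycMon z)
    (hC : ∀ h, 1 ≤ |h| → ET (19 / 20) z h ≤ ENNReal.ofReal (46 / 5 * |h|)) : False := by
  obtain ⟨z0, z1, -, zt⟩ := hz
  obtain ⟨e, he, hsg⟩ : ∃ e : ℕ → ℝ, (∀ i, (e i = 1 ∨ e i = -1) ∧ e (i + 1) = - e i) ∧
      ∀ i, e i * z i = |z i| := by
    obtain ⟨s, hs, hs1⟩ : ∃ s : ℝ, (s = 1 ∨ s = -1) ∧ -s * z 1 = |z 1| := by
      rcases le_total 0 (z 1) with h | h
      · exact ⟨-1, Or.inr rfl, by rw [abs_of_nonneg h]; ring⟩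
      · exact ⟨1, Or.inl rfl, by rw [abs_of_nonpos h]; ring⟩
    have hp : ∀ i : ℕ, s * (-1) ^ i = 1 ∨ s * (-1) ^ i = -1 := by
      intro i
      rcases hs with rfl | rfl <;> rcases neg_one_pow_eq_or ℝ i with h | h <;> simp [h]
    refine ⟨fun i => s * (-1) ^ i, fun i => ⟨hp i, by ring⟩, ?_⟩
    have : ∀ i : ℕ, s * (-1) ^ (i + 1) * z (i + 1) = |z (i + 1)| := by
      intro i
      induction i with
      | zero => simpa using hs1
      | succ n ih =>
        have h1 := (hc n).1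
        have h2 : s * (-1) ^ (n + 1 + 1) = -(s * (-1) ^ (n + 1)) := by ring
        rw [h2]
        rcases hp (n + 1) with h | h <;> rw [h] at ih ⊢
        · have : 0 ≤ z (n + 1) := by linarith [abs_nonneg (z (n + 1))]
          have : z (n + 2) ≤ 0 := by nlinarith
          rw [abs_of_nonpos this]; ring
        · have : z (n + 1) ≤ 0 := by linarith [abs_nonneg (z (n + 1))]
          have : 0 ≤ z (n + 2) := by nlinarith
          rw [abs_of_nonneg this]; ring
    intro i
    rcases i with _ | i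
    · simp [z0]
    · exact this i
  have e2 : ∀ i k, e (i + 2 * k) = e i := by
    intro i k
    induction k with
    | zero => rfl
    | succ n ih => rw [show i + 2 * (n + 1) = i + 2 * n + 1 + 1 by ring, (he _).2, (he _).2, ih]; ring
  have xs : ∀ i, |z i| < |z (i + 2)| := by
    intro i
    rcases i with _ | i
    · rw [z0, abs_zero, abs_pos]; intro h; have := (hc 0).1; rw [h] at this; simp at this
    · exact (hc i).2
  have xm : ∀ i k, |z i| ≤ |z (i + 2 * k)| := by
    intro i k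
    induction k with
    | zero => exact le_rfl
    | succ n ih => exact ih.trans (xs _).le
  have key : ∀ i j, j ≤ i + 1 → e i * z j ≤ |z i| := by
    intro i j hj
    obtain ⟨m, hm⟩ := Nat.exists_eq_add_of_le hj
    rcases Nat.even_or_odd' m with ⟨k, rfl | rfl⟩
    · have h1 := e2 j k
      rw [← hm, (he i).2] at h1
      have := hsg j
      rw [← h1] at this
      linarith [abs_nonneg (z j), abs_nonneg (z i)]
    · have hi : i = j + 2 * k := by omega
      rw [hi, e2, hsg]; exact xm j k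
  have eabs : ∀ i (a : ℝ), |e i * a| = |a| := by
    intro i a; rcases (he i).1 with h | h <;> simp [h]
  have esq : ∀ i, e i * e i = 1 := by
    intro i; rcases (he i).1 with h | h <;> simp [h]
  have early : ∀ i g, |z i| < g → ∀ t ∈ passes z (e i * g),
      ∃ j, i + 1 ≤ j ∧ t = tau z j + |g - e i * z j| := by
    rintro i g hg t ⟨j, hj, rfl⟩
    refine ⟨j, ?_, ?_⟩
    · by_contra hlt
      have k1 := key i j (by omega)
      have k2 := key i (j + 1) (by omega)
      rcases (he i).1 with h | h <;> rw [h] at hj k1 k2 <;> rcases mem_uIcc.1 hj with h' | h' <;>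
        linarith [h'.1, h'.2]
    · rw [← eabs i (e i * g - z j), mul_sub, ← mul_assoc, esq, one_mul]
  have use : ∀ i g a b, 1 ≤ g → 0 ≤ a → a ≤ b → (∀ t ∈ passes z (e i * g), t = a ∨ b ≤ t) →
      19 / 20 * a + 1 / 20 * b ≤ 46 / 5 * g := by
    intro i g a b hg ha hab hP
    have h1 : |e i * g| = g := by rw [eabs, abs_of_nonneg (by linarith)]
    have := (low _ a b ha hab hP).trans (hC (e i * g) (by rw [h1]; exact hg))
    rw [h1] at this
    exact (ENNReal.ofReal_le_ofReal_iff (by linarith)).1 this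
  have big : ∀ r, ∃ k, 1 ≤ |z (r + 2 * k)| := by
    intro r
    by_contra hn
    push Not at hn
    obtain ⟨N, hN⟩ := eventually_atTop.1 (zt.eventually_gt_atTop 10)
    have := use (r + 2 * N) 1 (tau z N) (tau z N) le_rfl (tau_nn _ _) le_rfl (by
      intro t ht
      obtain ⟨j, hj, rfl⟩ := early _ 1 (hn N) t ht
      right
      have := tau_mono z (show N ≤ j by omega)
      linarith [abs_nonneg (1 - e (r + 2 * N) * z j)])
    linarith [hN N le_rfl]
  obtain ⟨N, hN⟩ : ∃ N, ∀ i, N ≤ i → 1 ≤ |z i| := by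
    obtain ⟨k0, h0⟩ := big 0
    obtain ⟨k1, h1⟩ := big 1
    refine ⟨2 * k0 + 2 * k1 + 1, fun i hi => ?_⟩
    rcases Nat.even_or_odd' i with ⟨k, rfl | rfl⟩
    · have := xm (0 + 2 * k0) (k - k0)
      rw [show 0 + 2 * k0 + 2 * (k - k0) = 2 * k by omega] at this; linarith
    · have := xm (1 + 2 * k1) (k - k1)
      rw [show 1 + 2 * k1 + 2 * (k - k1) = 2 * k + 1 by omega] at this; linarith
  have opp : ∀ i, e i * z (i + 1) = -|z (i + 1)| := by
    intro i; have := hsg (i + 1); rw [(he i).2] at this; linarith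
  have ts : ∀ i, tau z (i + 1) = tau z i + |z i| + |z (i + 1)| := by
    intro i
    rw [tau_succ, ← eabs i (z (i + 1) - z i), mul_sub, opp, hsg, abs_of_nonpos
      (by linarith [abs_nonneg (z i), abs_nonneg (z (i + 1))])]
    ring
  set A : ℕ → ℝ := fun i => tau z i + |z i| with hA
  have As : ∀ i, A (i + 1) = A i + 2 * |z (i + 1)| := by
    intro i; simp only [hA]; rw [ts]; ring
  have main : ∀ i, N ≤ i → A (i + 1) + 1 / 10 * |z (i + 2)| ≤ 83 / 10 * |z i| := by
    intro i hi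
    have hx := hN i hi
    have step : ∀ g, |z i| < g → g < |z (i + 2)| →
        A (i + 1) + 1 / 10 * |z (i + 2)| ≤ 83 / 10 * g := by
      intro g g1 g2
      have := use i g (A (i + 1) + g) (A (i + 2) - g) (by linarith)
        (by have := tau_nn z (i + 1); have := abs_nonneg (z (i + 1)); simp only [hA]; linarith)
        (by rw [As (i + 1)]; linarith) (by
          intro t ht
          obtain ⟨j, hj, rfl⟩ := early i g g1 t ht
          rcases hj.eq_or_lt with rfl | hj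
          · left
            rw [opp, abs_of_nonneg (by linarith [abs_nonneg (z (i + 1))])]
            simp only [hA]; ring
          right
          rcases (show i + 2 ≤ j from hj).eq_or_lt with rfl | hj
          · have := hsg (i + 2 * 1)
            rw [e2] at this
            rw [this, abs_of_nonpos (by linarith)]
            simp only [hA]; linarith
          · have h1 := tau_mono z (show i + 2 + 1 ≤ j from hj)
            rw [ts] at h1
            simp only [hA]
            linarith [abs_nonneg (g - e i * z j), abs_nonneg (z (i + 2 + 1))])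
      rw [As (i + 1)] at this
      linarith
    refine le_of_forall_pos_le_add fun ε hε => ?_
    have := step (min (|z i| + ε / 10) ((|z i| + |z (i + 2)|) / 2))
      (lt_min (by linarith) (by linarith [xs i])) ((min_le_right _ _).trans_lt (by linarith [xs i]))
    linarith [min_le_left (|z i| + ε / 10) ((|z i| + |z (i + 2)|) / 2)]
  have Apos : ∀ i, 0 < A (N + i) := by
    intro i; have := tau_nn z (N + i); have := hN (N + i) (by omega); simp only [hA]; linarith
  set ρ : ℕ → ℝ := fun i => A (N + i + 1) / A (N + i) with hρ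
  have ρ1 : ∀ i, 1 ≤ ρ i := by
    intro i; simp only [hρ]; rw [le_div_iff₀ (Apos i), As]; linarith [abs_nonneg (z (N + i + 1))]
  have bdd : BddBelow (range ρ) := ⟨1, by rintro _ ⟨i, rfl⟩; exact ρ1 i⟩
  set r := ⨅ i, ρ i with hr
  have r1 : 1 ≤ r := le_ciInf ρ1
  have rle : ∀ i, r * A (N + i) ≤ A (N + i + 1) := fun i =>
    (le_div_iff₀ (Apos i)).1 (ciInf_le bdd i)
  obtain ⟨i, hi⟩ := exists_lt_of_ciInf_lt (show ⨅ i, ρ i < r + 1 / 1000 by linarith)
  have hi' : A (N + i + 1) < (r + 1 / 1000) * A (N + i) := (div_lt_iff₀ (Apos i)).1 hi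
  have m1 := main (N + i + 1) (by omega)
  have a1 := As (N + i)
  have a3 := As (N + i + 1 + 1)
  have b1 : r * A (N + i + 1) ≤ A (N + i + 1 + 1) := rle (i + 1)
  have b2 : r * A (N + i + 1 + 1) ≤ A (N + i + 1 + 1 + 1) := rle (i + 2)
  have p1 : 0 < A (N + i + 1) := Apos (i + 1)
  have p0 := Apos i
  rw [show N + i + 1 + 2 = N + i + 1 + 1 + 1 from rfl] at m1
  generalize A (N + i + 1 + 1 + 1) = A3 at *
  generalize A (N + i + 1 + 1) = A2 at *
  generalize A (N + i + 1) = A1 at *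
  generalize A (N + i) = A0 at *
  have c1 : A2 + (A3 - A2) / 20 ≤ 83 / 20 * (A1 - A0) := by linarith
  have c2 : (1 + (r - 1) / 20) * A2 ≤ 83 / 20 * (A1 - A0) := by linarith
  have c3 : (1 + (r - 1) / 20) * (r * A1) ≤ 83 / 20 * (A1 - A0) :=
    (mul_le_mul_of_nonneg_left b1 (by linarith)).trans c2
  have c4 : (r + 1 / 1000) * ((1 + (r - 1) / 20) * (r * A1)) ≤ 83 / 20 * ((r + 1 / 1000) * A1 - A1) := by
    have := mul_le_mul_of_nonneg_left c3 (show 0 ≤ r + 1 / 1000 by linarith)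
    linarith
  have c5 : 83 / 20 * ((r + 1 / 1000) - 1) < (r + 1 / 1000) * ((1 + (r - 1) / 20) * r) := by
    nlinarith [sq_nonneg (r - 19 / 10), mul_nonneg (show 0 ≤ r by linarith) (sq_nonneg (r - 19 / 10))]
  nlinarith [mul_lt_mul_of_pos_right c5 p1]

/-- the non-monotone trajectory -/
noncomputable def Y (n : ℕ) : ℝ :=
  if n % 3 = 1 then 21 / 80 * (-2) ^ (n / 3) else if n % 3 = 2 then 1 / 4 * (-2) ^ (n / 3)
  else if n = 0 then 0 else (-2) ^ (n / 3 - 1)

lemma Y0 : Y 0 = 0 := by simp [Y]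

lemma Y1 (i : ℕ) : Y (3 * i + 1) = (-1) ^ i * (21 / 80 * 2 ^ i) := by
  have h1 : (3 * i + 1) % 3 = 1 := by omega
  have h2 : (3 * i + 1) / 3 = i := by omega
  simp only [Y, h1, h2, if_true]; rw [neg_pow]; ring

lemma Y2 (i : ℕ) : Y (3 * i + 1 + 1) = (-1) ^ i * (1 / 4 * 2 ^ i) := by
  have h1 : (3 * i + 1 + 1) % 3 = 2 := by omega
  have h2 : (3 * i + 1 + 1) / 3 = i := by omega
  simp only [Y, h1, h2, if_true]; rw [neg_pow]; norm_num; ring

lemma Y3 (i : ℕ) : Y (3 * (i + 1)) = (-1) ^ i * 2 ^ i := by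
  have h1 : (3 * (i + 1)) % 3 = 0 := by omega
  have h2 : (3 * (i + 1)) / 3 - 1 = i := by omega
  have h3 : 3 * (i + 1) ≠ 0 := by omega
  simp only [Y, h1, h2, h3]; norm_num; exact neg_pow _ _

lemma sabs (i : ℕ) (a : ℝ) : |(-1) ^ i * a| = |a| := by simp [abs_mul]

lemma ssq (i : ℕ) : (-1 : ℝ) ^ i * (-1) ^ i = 1 := by rw [← mul_pow]; norm_num

lemma Y3' (i : ℕ) : Y (3 * i) = (-1) ^ i * -|Y (3 * i)| ∧ |Y (3 * i)| ≤ 2 ^ i / 2 := by
  rcases i with _ | i
  · simp [Y0]
  · rw [Y3, sabs, abs_of_pos (by positivity)]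
    exact ⟨by ring, le_of_eq (by ring)⟩

lemma T1 (i : ℕ) : tau Y (3 * i + 1) = tau Y (3 * i) + |Y (3 * i)| + 21 / 80 * 2 ^ i := by
  rw [tau_succ, Y1]
  nth_rw 1 [(Y3' i).1]
  rw [← mul_sub, sabs, abs_of_pos (by have := abs_nonneg (Y (3 * i)); have : (0:ℝ) < 2 ^ i := (by positivity); linarith)]
  ring

lemma T2 (i : ℕ) : tau Y (3 * i + 1 + 1) = tau Y (3 * i + 1) + 1 / 80 * 2 ^ i := by
  rw [tau_succ, Y1, Y2, ← mul_sub, sabs, abs_of_neg (by have : (0:ℝ) < 2 ^ i := (by positivity); linarith)]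
  ring

lemma T3 (i : ℕ) : tau Y (3 * (i + 1)) = tau Y (3 * i + 1 + 1) + 3 / 4 * 2 ^ i := by
  have := tau_succ Y (3 * i + 1 + 1)
  rw [show 3 * i + 1 + 1 + 1 = 3 * (i + 1) by ring, Y2, Y3, ← mul_sub, sabs,
    abs_of_pos (by have : (0:ℝ) < 2 ^ i := (by positivity); linarith)] at this
  rw [this]; ring

lemma TB (i : ℕ) : tau Y (3 * i) + |Y (3 * i)| = 81 / 40 * (2 ^ i - 1) := by
  induction i with
  | zero => simp [tau, Y0]
  | succ n ih => rw [T3, T2, T1, ih, Y3, sabs, abs_of_pos (by positivity)]; ring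

lemma trajY : IsTraj Y := by
  refine ⟨Y0, by have := Y1 0; norm_num at this; rw [this]; norm_num, fun n => ?_, ?_⟩
  · obtain ⟨i, rfl | rfl | rfl⟩ : ∃ i, n = 3 * i ∨ n = 3 * i + 1 ∨ n = 3 * i + 1 + 1 :=
      ⟨n / 3, by omega⟩
    all_goals have hp : (0:ℝ) < 2 ^ i := by positivity
    · rw [show 3 * i + 2 = 3 * i + 1 + 1 from rfl, Y1, Y2, (Y3' i).1, ← mul_sub, ← mul_sub,
        mul_mul_mul_comm, ssq, one_mul]
      exact mul_neg_of_neg_of_pos (by linarith) (by linarith [abs_nonneg (Y (3 * i))])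
    · rw [show 3 * i + 1 + 2 = 3 * (i + 1) by ring, Y1, Y2, Y3, ← mul_sub, ← mul_sub,
        mul_mul_mul_comm, ssq, one_mul]
      exact mul_neg_of_pos_of_neg (by linarith) (by linarith)
    · rw [show 3 * i + 1 + 1 + 2 = 3 * (i + 1) + 1 by ring, show 3 * i + 1 + 1 + 1 = 3 * (i + 1) by ring,
        Y1, Y2, Y3, pow_succ (-1 : ℝ), mul_assoc, ← mul_sub, ← mul_sub,
        mul_mul_mul_comm, ssq, one_mul, pow_succ]
      exact mul_neg_of_neg_of_pos (by linarith) (by linarith)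
  · refine tendsto_atTop_atTop_of_monotone (tau_mono Y) fun b => ?_
    obtain ⟨n, hn⟩ := pow_unbounded_of_one_lt (b + 3) (show (1:ℝ) < 2 by norm_num)
    refine ⟨3 * n + 1, ?_⟩
    rw [T1, TB]
    have hp : (0:ℝ) < 2 ^ n := by positivity
    linarith

lemma finP (y : ℕ → ℝ) (hy : IsTraj y) (h t : ℝ) : (passes y h ∩ Iic t).Finite := by
  obtain ⟨N, hN⟩ := eventually_atTop.1 (hy.2.2.2.eventually_gt_atTop t)
  refine ((finite_lt_nat N).image fun i => tau y i + |h - y i|).subset ?_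
  rintro _ ⟨⟨i, -, rfl⟩, hi⟩
  refine ⟨i, ?_, rfl⟩
  by_contra hc
  have := hN i (not_lt.1 hc)
  have hi' : tau y i + |h - y i| ≤ t := hi
  linarith [abs_nonneg (h - y i)]

lemma memS (i : ℕ) (a b g : ℝ) (h : g ∈ uIcc a b) :
    (-1) ^ i * g ∈ uIcc ((-1) ^ i * a) ((-1) ^ i * b) := by
  rcases neg_one_pow_eq_or ℝ i with e | e <;> rw [e] <;> rw [mem_uIcc] at h ⊢ <;>
    rcases h with h | h <;> [left; right; right; left] <;> constructor <;> linarith [h.1, h.2]

lemma upperS (i : ℕ) (g : ℝ) (g1 : 2 ^ i / 4 ≤ g) (g2 : g < 2 ^ i) :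
    ET (19 / 20) Y ((-1) ^ i * g) ≤ ENNReal.ofReal (919 / 100 * g) := by
  have hp : (0:ℝ) < 2 ^ i := by positivity
  set h : ℝ := (-1) ^ i * g with hh
  have habs : |h| = g := by rw [hh, sabs, abs_of_pos (by linarith)]
  set w : ℕ → ℝ := fun k => tau Y (3 * (i + k + 1)) + |h - Y (3 * (i + k + 1))| with hw
  have mem : ∀ k, h ∈ uIcc (Y (3 * (i + k + 1))) (Y (3 * (i + k + 1) + 1)) := by
    intro k
    rw [Y3, Y1, pow_succ (-1 : ℝ), mul_assoc]
    rcases k with _ | k
    · refine memS i _ _ _ (mem_uIcc.2 (Or.inr ⟨?_, g2.le⟩))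
      have : (0:ℝ) < 2 ^ (i + 0 + 1) := by positivity
      linarith
    · have e1 : h = (-1) ^ (i + (k + 1)) * ((-1) ^ (i + (k + 1)) * h) := by
        rw [← mul_assoc, ssq, one_mul]
      rw [e1]
      have e2 := abs_le.1 (le_of_eq ((sabs (i + (k + 1)) h).trans habs))
      have e3 : (2:ℝ) ^ i ≤ 2 ^ (i + k) := pow_le_pow_right₀ (by norm_num) (by omega)
      have e4 : (2:ℝ) ^ (i + (k + 1)) = 2 ^ (i + k) * 2 := by ring
      have e5 : (2:ℝ) ^ (i + (k + 1) + 1) = 2 ^ (i + k) * 4 := by ring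
      refine memS _ _ _ _ (mem_uIcc.2 (Or.inr ⟨?_, ?_⟩))
      · linarith [e2.1]
      · linarith [e2.2]
  have wP : ∀ k, w k ∈ passes Y h := fun k => ⟨_, mem k, rfl⟩
  have wle : ∀ k, w k ≤ tau Y (3 * (i + k + 1) + 1) := by
    intro k; rw [tau_succ]; have := abs_sub_left_of_mem_uIcc (mem k); simp only [hw]; linarith
  have wb : ∀ k, w k ≤ 183 / 80 * 2 ^ i * 2 ^ (k + 1) := by
    intro k
    refine (wle k).trans ?_
    rw [T1, TB, show (2:ℝ) ^ (i + k + 1) = 2 ^ i * 2 ^ (k + 1) by ring]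
    linarith
  have ws : ∀ k, w k < w (k + 1) := by
    intro k
    refine (wle k).trans_lt ?_
    have h1 := T2 (i + k + 1)
    have h2 := T3 (i + k + 1)
    have : (0:ℝ) < 2 ^ (i + k + 1) := by positivity
    have h3 := abs_nonneg (h - Y (3 * (i + k + 1 + 1)))
    show _ < tau Y (3 * (i + k + 1 + 1)) + |h - Y (3 * (i + k + 1 + 1))|
    linarith
  have w0 : w 0 = tau Y (3 * (i + 1)) + (2 ^ i - g) := by
    show tau Y (3 * (i + 1)) + |h - Y (3 * (i + 1))| = _
    rw [Y3, hh, ← mul_sub, sabs, abs_of_neg (by linarith)]; ring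
  have t1 := T1 i
  have t2 := T2 i
  have t3 := T3 i
  have tb := TB i
  have tn := tau_nn Y (3 * i)
  have yn := abs_nonneg (Y (3 * i))
  rcases lt_or_ge g (21 / 80 * 2 ^ i) with c | c
  · have s0 : tau Y (3 * i) + |Y (3 * i)| + g ∈ passes Y h := by
      refine ⟨3 * i, ?_, ?_⟩
      · rw [Y1, (Y3' i).1]; exact memS i _ _ _ (mem_uIcc.2 (Or.inl ⟨by linarith, c.le⟩))
      · nth_rw 2 [(Y3' i).1]
        rw [hh, ← mul_sub, sabs, abs_of_pos (show 0 < g - -|Y (3 * i)| by linarith)]; ring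
    have s1 : tau Y (3 * i + 1) + (21 / 80 * 2 ^ i - g) ∈ passes Y h := by
      refine ⟨3 * i + 1, ?_, ?_⟩
      · rw [Y1, Y2]; exact memS i _ _ _ (mem_uIcc.2 (Or.inr ⟨by linarith, c.le⟩))
      · rw [Y1, hh, ← mul_sub, sabs, abs_of_neg (by linarith)]; ring
    refine (up _ (finP Y trajY h) (fun k => Nat.casesOn k (tau Y (3 * i) + |Y (3 * i)| + g)
      (fun k => Nat.casesOn k (tau Y (3 * i + 1) + (21 / 80 * 2 ^ i - g)) w))
      (strictMono_nat_of_lt_succ ?_) ?_ ?_ (183 / 80 * 2 ^ i) ?_).trans (ENNReal.ofReal_le_ofReal ?_)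
    · rintro (_ | _ | k)
      · show tau Y (3 * i) + |Y (3 * i)| + g < tau Y (3 * i + 1) + (21 / 80 * 2 ^ i - g)
        linarith
      · show tau Y (3 * i + 1) + (21 / 80 * 2 ^ i - g) < w 0
        linarith
      · exact ws k
    · rintro (_ | _ | k)
      · exact s0
      · exact s1
      · exact wP k
    · show 0 ≤ tau Y (3 * i) + |Y (3 * i)| + g
      linarith
    · intro k
      refine (wb k).trans (mul_le_mul_of_nonneg_left (pow_le_pow_right₀ (by norm_num) (by omega))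
        (by positivity))
    · show 19 / 20 * (tau Y (3 * i) + |Y (3 * i)| + g +
        (tau Y (3 * i + 1) + (21 / 80 * 2 ^ i - g)) / 20 + _) ≤ _
      linarith
  · have s0 : tau Y (3 * i + 1 + 1) + (g - 1 / 4 * 2 ^ i) ∈ passes Y h := by
      refine ⟨3 * i + 1 + 1, ?_, ?_⟩
      · rw [show 3 * i + 1 + 1 + 1 = 3 * (i + 1) by ring, Y2, Y3]
        exact memS i _ _ _ (mem_uIcc.2 (Or.inl ⟨by linarith, g2.le⟩))
      · rw [Y2, hh, ← mul_sub, sabs, abs_of_nonneg (by linarith)]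
    refine (up _ (finP Y trajY h) (fun k => Nat.casesOn k
      (tau Y (3 * i + 1 + 1) + (g - 1 / 4 * 2 ^ i)) w)
      (strictMono_nat_of_lt_succ ?_) ?_ ?_ (183 / 80 * 2 ^ i) ?_).trans (ENNReal.ofReal_le_ofReal ?_)
    · rintro (_ | k)
      · show tau Y (3 * i + 1 + 1) + (g - 1 / 4 * 2 ^ i) < w 0
        linarith
      · exact ws k
    · rintro (_ | k)
      · exact s0
      · exact wP k
    · show 0 ≤ tau Y (3 * i + 1 + 1) + (g - 1 / 4 * 2 ^ i)
      linarith
    · intro k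
      exact wb (k + 1)
    · show 19 / 20 * (tau Y (3 * i + 1 + 1) + (g - 1 / 4 * 2 ^ i) + w 0 / 20 + _) ≤ _
      linarith

lemma upper (h : ℝ) (hh : 1 ≤ |h|) : ET (19 / 20) Y h ≤ ENNReal.ofReal (919 / 100 * |h|) := by
  rcases le_total 0 h with s | s
  · rw [abs_of_nonneg s] at hh ⊢
    obtain ⟨n, h1, h2⟩ := exists_nat_pow_near hh (show (1:ℝ) < 4 by norm_num)
    have e : (2:ℝ) ^ (2 * (n + 1)) = 4 ^ (n + 1) := by rw [pow_mul]; norm_num
    have := upperS (2 * (n + 1)) h (by rw [e, pow_succ]; linarith) (by rw [e]; exact h2)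
    rwa [pow_mul, neg_one_sq, one_pow, one_mul] at this
  · rw [abs_of_nonpos s] at hh ⊢
    obtain ⟨n, h1, h2⟩ := exists_nat_pow_near (show 1 ≤ 2 * -h by linarith) (show (1:ℝ) < 4 by norm_num)
    have e : (2:ℝ) ^ (2 * n + 1) = 4 ^ n * 2 := by rw [pow_succ, pow_mul]; norm_num
    have := upperS (2 * n + 1) (-h) (by rw [e]; linarith) (by rw [e]; rw [pow_succ] at h2; linarith)
    rwa [pow_succ, pow_mul, neg_one_sq, one_pow, one_mul, neg_mul_neg, one_mul] at this

theorem result : ∃ p ∈ Ioo (0 : ℝ) 1, ∃ y, IsTraj y ∧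
    CR p y < ⨅ (z : ℕ → ℝ) (_ : IsTraj z ∧ CycMon z), CR p z := by
  refine ⟨19 / 20, ⟨by norm_num, by norm_num⟩, Y, trajY, ?_⟩
  have h1 : CR (19 / 20) Y ≤ ENNReal.ofReal (19 / 20 * (919 / 100)) := by
    refine iSup₂_le fun h hh => ?_
    refine ENNReal.div_le_of_le_mul ?_
    refine (mul_le_mul_right (upper h hh) _).trans (le_of_eq ?_)
    rw [← ENNReal.ofReal_mul (by norm_num), ← ENNReal.ofReal_mul (by norm_num)]
    congr 1; ring
  refine h1.trans_lt (lt_of_lt_of_le (b := ENNReal.ofReal (19 / 20 * (46 / 5)))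
    ((ENNReal.ofReal_lt_ofReal_iff (by norm_num)).2 (by norm_num)) (le_iInf₂ fun z hz => ?_))
  by_contra hlt
  refine lower z hz.1 hz.2 fun h hh => ?_
  have h2 : ENNReal.ofReal (19 / 20) * ET (19 / 20) z h / ENNReal.ofReal |h| ≤
      ENNReal.ofReal (19 / 20 * (46 / 5)) :=
    (le_iSup₂ (f := fun (h : ℝ) (_ : 1 ≤ |h|) =>
      ENNReal.ofReal (19 / 20) * ET (19 / 20) z h / ENNReal.ofReal |h|) h hh).trans (not_le.1 hlt).le
  rw [ENNReal.div_le_iff (by simpa using fun e => by simp [e] at hh; linarith) ENNReal.ofReal_ne_top,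
    ENNReal.ofReal_mul (by norm_num), mul_assoc,
    ENNReal.mul_le_mul_iff_right (by simp) ENNReal.ofReal_ne_top,
    ← ENNReal.ofReal_mul (by norm_num)] at h2
  exact h2

end Pool.Agent.Results.MP_75ee99_lc.NotMonotone
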